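import Mathlib
import Pool.Agent.Helper45.HeatDefs
import Pool.Agent.Helper45.HeatFinal

/-!
# The Dirichlet boundary-controlled heat equation admits a coercive ISS Lyapunov function

State space `X = L₂(0,1)`, inputs `U = L_∞(ℝ_+)`. The first three clauses say that the system has a
unique solution map `φ` (weak solutions, equivalently the variation-of-constants formula in the
Dirichlet eigenbasis); the last one gives a coercive ISS Lyapunov function.

The function is the available storage
`V(x) = sup_{t ≥ 0, u} ( e^{8t} ‖φ(t,x,u)‖^8 - c ∫₀ᵗ e^{8s} |u(s)|^8 ds )`.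
-/

open MeasureTheory Set Filter Topology
open scoped ENNReal

namespace Pool.Agent.Results.MP_44d715_an.CoerciveISSHeat

open Pool.Agent.Helper45.HeatISS

theorem result :
    ∃ φ : ℝ → X → U → X,
      (∀ (x : X) (u : U), IsSolution x u (fun t => φ t x u)) ∧
      (∀ (x : X) (u : U) (ξ : ℝ → X), IsSolution x u ξ → ∀ t : ℝ, 0 ≤ t → ξ t = φ t x u) ∧
      (∀ (t : ℝ), 0 ≤ t → ∀ (x : X) (u : U) (n : ℕ), 1 ≤ n →
        sineCoeff n (φ t x u) =
          Real.exp (-((n * Real.pi) ^ 2 * t)) * sineCoeff n x +
            ∫ s in (0 : ℝ)..t, Real.exp (-((n * Real.pi) ^ 2 * (t - s))) *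
              (-(u s) * (Real.sqrt 2 * (n * Real.pi) * Real.cos (n * Real.pi)))) ∧
      ∃ V : X → ℝ, IsCoerciveISSLyapunov φ V :=
  ⟨phi, phi_isSolution, fun _ _ _ h _ ht => solution_unique h ht, phi_formula, V,
    V_isLyapunov⟩

end Pool.Agent.Results.MP_44d715_an.CoerciveISSHeat
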